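import Pool.Agent.Helper17.QD.Glue

/-!
# Project QD (MP_d112a4_gt), glue, module IQP: change of marking
-/

set_option autoImplicit false

open Filter Topology Matrix Set Metric MeasureTheory
open scoped ComplexConjugate ComplexOrder ENNReal

namespace Pool.Agent.Helper81.QL

open Pool.Agent.Helper17.QD Pool.Agent.Helper35.PM

theorem hIQP : StIQP := by
  intro Γ _ φ ρ h
  have hmap : Filter.map (fun γ => φ γ) cofinite = cofinite := by
    have h1 : Filter.comap (fun γ => φ γ) cofinite = cofinite := φ.injective.comap_cofinite_eq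
    conv_lhs => rw [← h1]
    exact Filter.map_comap_of_surjective φ.surjective _
  have hlim : limitSet (pre φ ρ) = limitSet ρ := by
    ext Q
    show MapClusterPt Q cofinite ((fun γ : Γ => density ((ρ γ : Mat) * (ρ γ : Mat)ᴴ)) ∘
      (fun γ => φ γ)) ↔ MapClusterPt Q cofinite
        (fun γ : Γ => density ((ρ γ : Mat) * (ρ γ : Mat)ᴴ))
    rw [mapClusterPt_comp, hmap]
  refine ⟨?_, ?_, ?_, ?_⟩
  · intro γ hγ
    have h1 : φ γ = 1 := h.faithful (φ γ) hγ
    exact (map_eq_one_iff φ φ.injective).1 h1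
  · intro X
    exact (h.discrete X).preimage (f := fun γ => φ γ) φ.injective.injOn
  · rw [hlim]; exact h.jordan
  · obtain ⟨C, K, c1, c2, c3, c4, c5, c6, c7⟩ := h.cocompact
    refine ⟨C, K, c1, c2, c3, fun γ P hP => c4 (φ γ) P hP, c5, c6, fun P hP => ?_⟩
    obtain ⟨γ, hγ⟩ := c7 P hP
    refine ⟨φ.symm γ, ?_⟩
    show density ((ρ (φ (φ.symm γ)) : Mat) * P * (ρ (φ (φ.symm γ)) : Mat)ᴴ) ∈ K
    rw [MulEquiv.apply_symm_apply]
    exact hγ

end Pool.Agent.Helper81.QL
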